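import Pool.Agent.BEK.Stmts
import Pool.Agent.Helper44_BEO.EVO

set_option autoImplicit false

/-! Squad BEK (MP_be01ff_an), row RDK: radial functions on the annulus orthogonal to the powers
of `|y|²`. -/

namespace Pool.Agent.BEK.H69

open Set Filter Topology MeasureTheory
open scoped InnerProductSpace ENNReal
open Pool.Agent.BE01 Pool.Agent.BED Pool.Agent.BEJ Pool.Agent.BEK
open Pool.Agent.BEO (Pl BB ev lap rho)

theorem ev_rho_pow (b : ℕ) (x : En 2) : ev (rho 2 ^ b) x = (‖x‖ ^ 2) ^ b := by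
  have h1 : ev (rho 2 ^ b) x = ev (rho 2) x ^ b := by
    unfold ev
    rw [map_pow]
  rw [h1, Pool.Agent.BEO.H44.ev_rho]

theorem rdk (rde : Pool.Agent.BED.RdeStmt) : RdkStmt := by
  intro a b u ha hab hu h0
  have hAo : IsOpen (An a b) :=
    (isOpen_lt continuous_const continuous_norm).inter (isOpen_lt continuous_norm continuous_const)
  have hA : MeasurableSet (An a b) := hAo.measurableSet
  have hB : MeasurableSet (BB 2 b) := Metric.isOpen_ball.measurableSet
  have hsub : An a b ⊆ BB 2 b := by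
    intro x hx
    show x ∈ Metric.ball (0 : En 2) b
    rw [mem_ball_zero_iff]
    exact hx.2
  have hres : (mu (BB 2 b)).restrict (An a b) = mu (An a b) := by
    unfold mu
    rw [Measure.restrict_restrict hA, inter_eq_self_of_subset_left hsub]
  obtain ⟨f, hf⟩ : ∃ f : En 2 → ℝ, f = (An a b).indicator u := ⟨_, rfl⟩
  have hmem : MemLp f 2 (mu (BB 2 b)) := by
    rw [hf, memLp_indicator_iff_restrict hA, hres]
    exact Lp.memLp u
  have hae : (hmem.toLp f : En 2 → ℝ) =ᵐ[mu (BB 2 b)] f := hmem.coeFn_toLp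
  have hA_ae : ∀ {p : En 2 → Prop}, (∀ᵐ x ∂(mu (An a b)), p x) →
      ∀ᵐ x ∂(mu (BB 2 b)), x ∈ An a b → p x := by
    intro p hp
    rw [← hres, ae_restrict_iff' hA] at hp
    exact hp
  -- radial
  have hrad : Rad b (hmem.toLp f) := by
    intro g _
    have hg : MeasurePreserving g (volume : Measure (En 2)) volume := g.measurePreserving
    have hgB : g ⁻¹' (BB 2 b) = BB 2 b := by
      ext x
      show g x ∈ Metric.ball (0 : En 2) b ↔ x ∈ Metric.ball (0 : En 2) b
      rw [mem_ball_zero_iff, mem_ball_zero_iff, g.norm_map]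
    have hg2 : MeasurePreserving g (mu (BB 2 b)) (mu (BB 2 b)) := by
      have h := hg.restrict_preimage hB
      rw [hgB] at h
      exact h
    have h1 := hg2.quasiMeasurePreserving.ae_eq_comp hae
    have h2 := hA_ae (hu g (Set.mem_univ _))
    filter_upwards [hae, h1, h2] with x e1 e2 e3
    rw [e1]
    have e4 : (hmem.toLp f : En 2 → ℝ) (g x) = f (g x) := e2
    show (hmem.toLp f : En 2 → ℝ) (g x) = f x
    rw [e4, hf]
    have hgx : g x ∈ An a b ↔ x ∈ An a b := by
      show (a < ‖g x‖ ∧ ‖g x‖ < b) ↔ (a < ‖x‖ ∧ ‖x‖ < b)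
      rw [g.norm_map]
    by_cases hx : x ∈ An a b
    · rw [indicator_of_mem (hgx.2 hx), indicator_of_mem hx]
      exact e3 hx
    · rw [indicator_of_notMem (fun h => hx (hgx.1 h)), indicator_of_notMem hx]
  have hzero : (hmem.toLp f) = 0 := by
    refine rde b _ (ha.trans hab) hrad fun j => ?_
    have e : ∫ x, (hmem.toLp f : En 2 → ℝ) x * ev (rho 2 ^ j) x ∂(mu (BB 2 b)) =
        ∫ x, (An a b).indicator (fun x => u x * (‖x‖ ^ 2) ^ j) x ∂(mu (BB 2 b)) := by
      apply integral_congr_ae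
      filter_upwards [hae] with x e1
      rw [e1, ev_rho_pow, hf]
      by_cases hx : x ∈ An a b
      · rw [indicator_of_mem hx, indicator_of_mem hx]
      · rw [indicator_of_notMem hx, indicator_of_notMem hx, zero_mul]
    rw [e, integral_indicator hA, hres]
    exact h0 j
  rw [Lp.eq_zero_iff_ae_eq_zero]
  have h3 : (hmem.toLp f : En 2 → ℝ) =ᵐ[mu (BB 2 b)] 0 := (Lp.eq_zero_iff_ae_eq_zero).1 hzero
  have h4 : f =ᵐ[mu (BB 2 b)] 0 := hae.symm.trans h3
  have h5 : ∀ᵐ x ∂(mu (An a b)), f x = 0 := by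
    rw [← hres]
    exact ae_restrict_of_ae h4
  have h6 : ∀ᵐ x ∂(mu (An a b)), x ∈ An a b := ae_restrict_mem hA
  filter_upwards [h5, h6] with x e1 e2
  rw [hf, indicator_of_mem e2] at e1
  exact e1

end Pool.Agent.BEK.H69
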